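import Pool.Agent.MaxTerm.PartA.ChkSound3
import Pool.Agent.MaxTerm.PartA.Far.D0
import Pool.Agent.MaxTerm.PartA.Far.D1
import Pool.Agent.MaxTerm.PartA.Far.D2
import Pool.Agent.MaxTerm.PartA.Far.D3
import Pool.Agent.MaxTerm.PartA.Far.D4
import Pool.Agent.MaxTerm.PartA.Far.D5
import Pool.Agent.MaxTerm.PartA.Far.D6
import Pool.Agent.MaxTerm.PartA.Far.D7
import Pool.Agent.MaxTerm.PartA.Far.D8

/-! assembly of the far region (generated) -/

set_option maxRecDepth 100000

namespace MaxTerm.PA.Chk

theorem g_r0_000 : Good (((root0.lo 0).lo 2).lo 0) :=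
  check_sound t_r0_000 ⟨by decide +kernel, by decide +kernel, by decide +kernel, by decide +kernel⟩ c_r0_000

theorem g_r0_0010 : Good ((((root0.lo 0).lo 2).hi 0).lo 2) :=
  check_sound t_r0_0010 ⟨by decide +kernel, by decide +kernel, by decide +kernel, by decide +kernel⟩ c_r0_0010

theorem g_r0_00110 : Good (((((root0.lo 0).lo 2).hi 0).hi 2).lo 1) :=
  check_sound t_r0_00110 ⟨by decide +kernel, by decide +kernel, by decide +kernel, by decide +kernel⟩ c_r0_00110

theorem g_r0_001110 : Good ((((((root0.lo 0).lo 2).hi 0).hi 2).hi 1).lo 3) :=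
  check_sound t_r0_001110 ⟨by decide +kernel, by decide +kernel, by decide +kernel, by decide +kernel⟩ c_r0_001110

theorem g_r0_0011110 : Good (((((((root0.lo 0).lo 2).hi 0).hi 2).hi 1).hi 3).lo 0) :=
  check_sound t_r0_0011110 ⟨by decide +kernel, by decide +kernel, by decide +kernel, by decide +kernel⟩ c_r0_0011110

theorem g_r0_00111110 : Good ((((((((root0.lo 0).lo 2).hi 0).hi 2).hi 1).hi 3).hi 0).lo 2) :=
  check_sound t_r0_00111110 ⟨by decide +kernel, by decide +kernel, by decide +kernel, by decide +kernel⟩ c_r0_00111110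

theorem g_r0_00111111000 : Good (((((((((((root0.lo 0).lo 2).hi 0).hi 2).hi 1).hi 3).hi 0).hi 2).lo 1).lo 3).lo 0) :=
  check_sound t_r0_00111111000 ⟨by decide +kernel, by decide +kernel, by decide +kernel, by decide +kernel⟩ c_r0_00111111000

theorem g_r0_001111110010 : Good ((((((((((((root0.lo 0).lo 2).hi 0).hi 2).hi 1).hi 3).hi 0).hi 2).lo 1).lo 3).hi 0).lo 2) :=
  check_sound t_r0_001111110010 ⟨by decide +kernel, by decide +kernel, by decide +kernel, by decide +kernel⟩ c_r0_001111110010

theorem g_r0_001111110011000 : Good (((((((((((((((root0.lo 0).lo 2).hi 0).hi 2).hi 1).hi 3).hi 0).hi 2).lo 1).lo 3).hi 0).hi 2).lo 1).lo 3).lo 0) :=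
  check_sound t_r0_001111110011000 ⟨by decide +kernel, by decide +kernel, by decide +kernel, by decide +kernel⟩ c_r0_001111110011000

theorem g_r0_0011111100110010 : Good ((((((((((((((((root0.lo 0).lo 2).hi 0).hi 2).hi 1).hi 3).hi 0).hi 2).lo 1).lo 3).hi 0).hi 2).lo 1).lo 3).hi 0).lo 2) :=
  check_sound t_r0_0011111100110010 ⟨by decide +kernel, by decide +kernel, by decide +kernel, by decide +kernel⟩ c_r0_0011111100110010

theorem g_r0_0011111100110011000 : Good (((((((((((((((((((root0.lo 0).lo 2).hi 0).hi 2).hi 1).hi 3).hi 0).hi 2).lo 1).lo 3).hi 0).hi 2).lo 1).lo 3).hi 0).hi 2).lo 1).lo 3).lo 2) :=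
  check_sound t_r0_0011111100110011000 ⟨by decide +kernel, by decide +kernel, by decide +kernel, by decide +kernel⟩ c_r0_0011111100110011000

theorem g_r0_00111111001100110010 : Good ((((((((((((((((((((root0.lo 0).lo 2).hi 0).hi 2).hi 1).hi 3).hi 0).hi 2).lo 1).lo 3).hi 0).hi 2).lo 1).lo 3).hi 0).hi 2).lo 1).lo 3).hi 2).lo 0) :=
  check_sound t_r0_00111111001100110010 ⟨by decide +kernel, by decide +kernel, by decide +kernel, by decide +kernel⟩ c_r0_00111111001100110010

theorem g_r0_00111111001100110011000 : Good (((((((((((((((((((((((root0.lo 0).lo 2).hi 0).hi 2).hi 1).hi 3).hi 0).hi 2).lo 1).lo 3).hi 0).hi 2).lo 1).lo 3).hi 0).hi 2).lo 1).lo 3).hi 2).hi 0).lo 3).lo 1).lo 2) :=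
  check_sound t_r0_00111111001100110011000 ⟨by decide +kernel, by decide +kernel, by decide +kernel, by decide +kernel⟩ c_r0_00111111001100110011000

theorem g_r0_00111111001100110011001 : Good (((((((((((((((((((((((root0.lo 0).lo 2).hi 0).hi 2).hi 1).hi 3).hi 0).hi 2).lo 1).lo 3).hi 0).hi 2).lo 1).lo 3).hi 0).hi 2).lo 1).lo 3).hi 2).hi 0).lo 3).lo 1).hi 2) :=
  check_sound t_r0_00111111001100110011001 ⟨by decide +kernel, by decide +kernel, by decide +kernel, by decide +kernel⟩ c_r0_00111111001100110011001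

theorem g_r0_0011111100110011001101 : Good ((((((((((((((((((((((root0.lo 0).lo 2).hi 0).hi 2).hi 1).hi 3).hi 0).hi 2).lo 1).lo 3).hi 0).hi 2).lo 1).lo 3).hi 0).hi 2).lo 1).lo 3).hi 2).hi 0).lo 3).hi 1) :=
  check_sound t_r0_0011111100110011001101 ⟨by decide +kernel, by decide +kernel, by decide +kernel, by decide +kernel⟩ c_r0_0011111100110011001101

theorem g_r0_001111110011001100111 : Good (((((((((((((((((((((root0.lo 0).lo 2).hi 0).hi 2).hi 1).hi 3).hi 0).hi 2).lo 1).lo 3).hi 0).hi 2).lo 1).lo 3).hi 0).hi 2).lo 1).lo 3).hi 2).hi 0).hi 3) :=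
  check_sound t_r0_001111110011001100111 ⟨by decide +kernel, by decide +kernel, by decide +kernel, by decide +kernel⟩ c_r0_001111110011001100111

theorem g_r0_001111110011001101 : Good ((((((((((((((((((root0.lo 0).lo 2).hi 0).hi 2).hi 1).hi 3).hi 0).hi 2).lo 1).lo 3).hi 0).hi 2).lo 1).lo 3).hi 0).hi 2).lo 1).hi 3) :=
  check_sound t_r0_001111110011001101 ⟨by decide +kernel, by decide +kernel, by decide +kernel, by decide +kernel⟩ c_r0_001111110011001101

theorem g_r0_00111111001100111 : Good (((((((((((((((((root0.lo 0).lo 2).hi 0).hi 2).hi 1).hi 3).hi 0).hi 2).lo 1).lo 3).hi 0).hi 2).lo 1).lo 3).hi 0).hi 2).hi 1) :=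
  check_sound t_r0_00111111001100111 ⟨by decide +kernel, by decide +kernel, by decide +kernel, by decide +kernel⟩ c_r0_00111111001100111

theorem g_r0_00111111001101 : Good ((((((((((((((root0.lo 0).lo 2).hi 0).hi 2).hi 1).hi 3).hi 0).hi 2).lo 1).lo 3).hi 0).hi 2).lo 1).hi 3) :=
  check_sound t_r0_00111111001101 ⟨by decide +kernel, by decide +kernel, by decide +kernel, by decide +kernel⟩ c_r0_00111111001101

theorem g_r0_0011111100111 : Good (((((((((((((root0.lo 0).lo 2).hi 0).hi 2).hi 1).hi 3).hi 0).hi 2).lo 1).lo 3).hi 0).hi 2).hi 1) :=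
  check_sound t_r0_0011111100111 ⟨by decide +kernel, by decide +kernel, by decide +kernel, by decide +kernel⟩ c_r0_0011111100111

theorem g_r0_0011111101 : Good ((((((((((root0.lo 0).lo 2).hi 0).hi 2).hi 1).hi 3).hi 0).hi 2).lo 1).hi 3) :=
  check_sound t_r0_0011111101 ⟨by decide +kernel, by decide +kernel, by decide +kernel, by decide +kernel⟩ c_r0_0011111101

theorem g_r0_001111111 : Good (((((((((root0.lo 0).lo 2).hi 0).hi 2).hi 1).hi 3).hi 0).hi 2).hi 1) :=
  check_sound t_r0_001111111 ⟨by decide +kernel, by decide +kernel, by decide +kernel, by decide +kernel⟩ c_r0_001111111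

theorem g_r0_01000 : Good (((((root0.lo 0).hi 2).lo 0).lo 2).lo 1) :=
  check_sound t_r0_01000 ⟨by decide +kernel, by decide +kernel, by decide +kernel, by decide +kernel⟩ c_r0_01000

theorem g_r0_01001 : Good (((((root0.lo 0).hi 2).lo 0).lo 2).hi 1) :=
  check_sound t_r0_01001 ⟨by decide +kernel, by decide +kernel, by decide +kernel, by decide +kernel⟩ c_r0_01001

theorem g_r0_010100000 : Good (((((((((root0.lo 0).hi 2).lo 0).hi 2).lo 1).lo 3).lo 0).lo 0).lo 2) :=
  check_sound t_r0_010100000 ⟨by decide +kernel, by decide +kernel, by decide +kernel, by decide +kernel⟩ c_r0_010100000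

theorem g_r0_010100001 : Good (((((((((root0.lo 0).hi 2).lo 0).hi 2).lo 1).lo 3).lo 0).lo 0).hi 2) :=
  check_sound t_r0_010100001 ⟨by decide +kernel, by decide +kernel, by decide +kernel, by decide +kernel⟩ c_r0_010100001

theorem g_r0_01010001 : Good ((((((((root0.lo 0).hi 2).lo 0).hi 2).lo 1).lo 3).lo 0).hi 0) :=
  check_sound t_r0_01010001 ⟨by decide +kernel, by decide +kernel, by decide +kernel, by decide +kernel⟩ c_r0_01010001

theorem g_r0_0101001 : Good (((((((root0.lo 0).hi 2).lo 0).hi 2).lo 1).lo 3).hi 0) :=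
  check_sound t_r0_0101001 ⟨by decide +kernel, by decide +kernel, by decide +kernel, by decide +kernel⟩ c_r0_0101001

theorem g_r0_010101 : Good ((((((root0.lo 0).hi 2).lo 0).hi 2).lo 1).hi 3) :=
  check_sound t_r0_010101 ⟨by decide +kernel, by decide +kernel, by decide +kernel, by decide +kernel⟩ c_r0_010101

theorem g_r0_01011 : Good (((((root0.lo 0).hi 2).lo 0).hi 2).hi 1) :=
  check_sound t_r0_01011 ⟨by decide +kernel, by decide +kernel, by decide +kernel, by decide +kernel⟩ c_r0_01011

theorem g_r0_011000 : Good ((((((root0.lo 0).hi 2).hi 0).lo 2).lo 1).lo 3) :=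
  check_sound t_r0_011000 ⟨by decide +kernel, by decide +kernel, by decide +kernel, by decide +kernel⟩ c_r0_011000

theorem g_r0_011001 : Good ((((((root0.lo 0).hi 2).hi 0).lo 2).lo 1).hi 3) :=
  check_sound t_r0_011001 ⟨by decide +kernel, by decide +kernel, by decide +kernel, by decide +kernel⟩ c_r0_011001

theorem g_r0_011010 : Good ((((((root0.lo 0).hi 2).hi 0).lo 2).hi 1).lo 3) :=
  check_sound t_r0_011010 ⟨by decide +kernel, by decide +kernel, by decide +kernel, by decide +kernel⟩ c_r0_011010

theorem g_r0_011011000 : Good (((((((((root0.lo 0).hi 2).hi 0).lo 2).hi 1).hi 3).lo 1).lo 3).lo 0) :=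
  check_sound t_r0_011011000 ⟨by decide +kernel, by decide +kernel, by decide +kernel, by decide +kernel⟩ c_r0_011011000

theorem g_r0_011011001 : Good (((((((((root0.lo 0).hi 2).hi 0).lo 2).hi 1).hi 3).lo 1).lo 3).hi 0) :=
  check_sound t_r0_011011001 ⟨by decide +kernel, by decide +kernel, by decide +kernel, by decide +kernel⟩ c_r0_011011001

theorem g_r0_01101101 : Good ((((((((root0.lo 0).hi 2).hi 0).lo 2).hi 1).hi 3).lo 1).hi 3) :=
  check_sound t_r0_01101101 ⟨by decide +kernel, by decide +kernel, by decide +kernel, by decide +kernel⟩ c_r0_01101101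

theorem g_r0_0110111 : Good (((((((root0.lo 0).hi 2).hi 0).lo 2).hi 1).hi 3).hi 1) :=
  check_sound t_r0_0110111 ⟨by decide +kernel, by decide +kernel, by decide +kernel, by decide +kernel⟩ c_r0_0110111

theorem g_r0_0111 : Good ((((root0.lo 0).hi 2).hi 0).hi 2) :=
  check_sound t_r0_0111 ⟨by decide +kernel, by decide +kernel, by decide +kernel, by decide +kernel⟩ c_r0_0111

theorem g_r0_10 : Good ((root0.hi 0).lo 2) :=
  check_sound t_r0_10 ⟨by decide +kernel, by decide +kernel, by decide +kernel, by decide +kernel⟩ c_r0_10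

theorem g_r0_11 : Good ((root0.hi 0).hi 2) :=
  check_sound t_r0_11 ⟨by decide +kernel, by decide +kernel, by decide +kernel, by decide +kernel⟩ c_r0_11

theorem g_r1_0 : Good (root1.lo 0) :=
  check_sound t_r1_0 ⟨by decide +kernel, by decide +kernel, by decide +kernel, by decide +kernel⟩ c_r1_0

theorem g_r1_1 : Good (root1.hi 0) :=
  check_sound t_r1_1 ⟨by decide +kernel, by decide +kernel, by decide +kernel, by decide +kernel⟩ c_r1_1

theorem g_r2_0 : Good (root2.lo 0) :=
  check_sound t_r2_0 ⟨by decide +kernel, by decide +kernel, by decide +kernel, by decide +kernel⟩ c_r2_0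

theorem g_r2_1 : Good (root2.hi 0) :=
  check_sound t_r2_1 ⟨by decide +kernel, by decide +kernel, by decide +kernel, by decide +kernel⟩ c_r2_1

theorem g_r0_0011111100110011001100 : Good ((((((((((((((((((((((root0.lo 0).lo 2).hi 0).hi 2).hi 1).hi 3).hi 0).hi 2).lo 1).lo 3).hi 0).hi 2).lo 1).lo 3).hi 0).hi 2).lo 1).lo 3).hi 2).hi 0).lo 3).lo 1) :=
  good_split ⟨by decide +kernel, by decide +kernel, by decide +kernel, by decide +kernel⟩ 2 (by decide +kernel) g_r0_00111111001100110011000 g_r0_00111111001100110011001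

theorem g_r0_001111110011001100110 : Good (((((((((((((((((((((root0.lo 0).lo 2).hi 0).hi 2).hi 1).hi 3).hi 0).hi 2).lo 1).lo 3).hi 0).hi 2).lo 1).lo 3).hi 0).hi 2).lo 1).lo 3).hi 2).hi 0).lo 3) :=
  good_split ⟨by decide +kernel, by decide +kernel, by decide +kernel, by decide +kernel⟩ 1 (by decide +kernel) g_r0_0011111100110011001100 g_r0_0011111100110011001101

theorem g_r0_00111111001100110011 : Good ((((((((((((((((((((root0.lo 0).lo 2).hi 0).hi 2).hi 1).hi 3).hi 0).hi 2).lo 1).lo 3).hi 0).hi 2).lo 1).lo 3).hi 0).hi 2).lo 1).lo 3).hi 2).hi 0) :=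
  good_split ⟨by decide +kernel, by decide +kernel, by decide +kernel, by decide +kernel⟩ 3 (by decide +kernel) g_r0_001111110011001100110 g_r0_001111110011001100111

theorem g_r0_0011111100110011001 : Good (((((((((((((((((((root0.lo 0).lo 2).hi 0).hi 2).hi 1).hi 3).hi 0).hi 2).lo 1).lo 3).hi 0).hi 2).lo 1).lo 3).hi 0).hi 2).lo 1).lo 3).hi 2) :=
  good_split ⟨by decide +kernel, by decide +kernel, by decide +kernel, by decide +kernel⟩ 0 (by decide +kernel) g_r0_00111111001100110010 g_r0_00111111001100110011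

theorem g_r0_001111110011001100 : Good ((((((((((((((((((root0.lo 0).lo 2).hi 0).hi 2).hi 1).hi 3).hi 0).hi 2).lo 1).lo 3).hi 0).hi 2).lo 1).lo 3).hi 0).hi 2).lo 1).lo 3) :=
  good_split ⟨by decide +kernel, by decide +kernel, by decide +kernel, by decide +kernel⟩ 2 (by decide +kernel) g_r0_0011111100110011000 g_r0_0011111100110011001

theorem g_r0_00111111001100110 : Good (((((((((((((((((root0.lo 0).lo 2).hi 0).hi 2).hi 1).hi 3).hi 0).hi 2).lo 1).lo 3).hi 0).hi 2).lo 1).lo 3).hi 0).hi 2).lo 1) :=
  good_split ⟨by decide +kernel, by decide +kernel, by decide +kernel, by decide +kernel⟩ 3 (by decide +kernel) g_r0_001111110011001100 g_r0_001111110011001101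

theorem g_r0_0011111100110011 : Good ((((((((((((((((root0.lo 0).lo 2).hi 0).hi 2).hi 1).hi 3).hi 0).hi 2).lo 1).lo 3).hi 0).hi 2).lo 1).lo 3).hi 0).hi 2) :=
  good_split ⟨by decide +kernel, by decide +kernel, by decide +kernel, by decide +kernel⟩ 1 (by decide +kernel) g_r0_00111111001100110 g_r0_00111111001100111

theorem g_r0_001111110011001 : Good (((((((((((((((root0.lo 0).lo 2).hi 0).hi 2).hi 1).hi 3).hi 0).hi 2).lo 1).lo 3).hi 0).hi 2).lo 1).lo 3).hi 0) :=
  good_split ⟨by decide +kernel, by decide +kernel, by decide +kernel, by decide +kernel⟩ 2 (by decide +kernel) g_r0_0011111100110010 g_r0_0011111100110011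

theorem g_r0_00111111001100 : Good ((((((((((((((root0.lo 0).lo 2).hi 0).hi 2).hi 1).hi 3).hi 0).hi 2).lo 1).lo 3).hi 0).hi 2).lo 1).lo 3) :=
  good_split ⟨by decide +kernel, by decide +kernel, by decide +kernel, by decide +kernel⟩ 0 (by decide +kernel) g_r0_001111110011000 g_r0_001111110011001

theorem g_r0_0011111100110 : Good (((((((((((((root0.lo 0).lo 2).hi 0).hi 2).hi 1).hi 3).hi 0).hi 2).lo 1).lo 3).hi 0).hi 2).lo 1) :=
  good_split ⟨by decide +kernel, by decide +kernel, by decide +kernel, by decide +kernel⟩ 3 (by decide +kernel) g_r0_00111111001100 g_r0_00111111001101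

theorem g_r0_001111110011 : Good ((((((((((((root0.lo 0).lo 2).hi 0).hi 2).hi 1).hi 3).hi 0).hi 2).lo 1).lo 3).hi 0).hi 2) :=
  good_split ⟨by decide +kernel, by decide +kernel, by decide +kernel, by decide +kernel⟩ 1 (by decide +kernel) g_r0_0011111100110 g_r0_0011111100111

theorem g_r0_00111111001 : Good (((((((((((root0.lo 0).lo 2).hi 0).hi 2).hi 1).hi 3).hi 0).hi 2).lo 1).lo 3).hi 0) :=
  good_split ⟨by decide +kernel, by decide +kernel, by decide +kernel, by decide +kernel⟩ 2 (by decide +kernel) g_r0_001111110010 g_r0_001111110011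

theorem g_r0_0011111100 : Good ((((((((((root0.lo 0).lo 2).hi 0).hi 2).hi 1).hi 3).hi 0).hi 2).lo 1).lo 3) :=
  good_split ⟨by decide +kernel, by decide +kernel, by decide +kernel, by decide +kernel⟩ 0 (by decide +kernel) g_r0_00111111000 g_r0_00111111001

theorem g_r0_001111110 : Good (((((((((root0.lo 0).lo 2).hi 0).hi 2).hi 1).hi 3).hi 0).hi 2).lo 1) :=
  good_split ⟨by decide +kernel, by decide +kernel, by decide +kernel, by decide +kernel⟩ 3 (by decide +kernel) g_r0_0011111100 g_r0_0011111101

theorem g_r0_00111111 : Good ((((((((root0.lo 0).lo 2).hi 0).hi 2).hi 1).hi 3).hi 0).hi 2) :=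
  good_split ⟨by decide +kernel, by decide +kernel, by decide +kernel, by decide +kernel⟩ 1 (by decide +kernel) g_r0_001111110 g_r0_001111111

theorem g_r0_0011111 : Good (((((((root0.lo 0).lo 2).hi 0).hi 2).hi 1).hi 3).hi 0) :=
  good_split ⟨by decide +kernel, by decide +kernel, by decide +kernel, by decide +kernel⟩ 2 (by decide +kernel) g_r0_00111110 g_r0_00111111

theorem g_r0_001111 : Good ((((((root0.lo 0).lo 2).hi 0).hi 2).hi 1).hi 3) :=
  good_split ⟨by decide +kernel, by decide +kernel, by decide +kernel, by decide +kernel⟩ 0 (by decide +kernel) g_r0_0011110 g_r0_0011111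

theorem g_r0_00111 : Good (((((root0.lo 0).lo 2).hi 0).hi 2).hi 1) :=
  good_split ⟨by decide +kernel, by decide +kernel, by decide +kernel, by decide +kernel⟩ 3 (by decide +kernel) g_r0_001110 g_r0_001111

theorem g_r0_0011 : Good ((((root0.lo 0).lo 2).hi 0).hi 2) :=
  good_split ⟨by decide +kernel, by decide +kernel, by decide +kernel, by decide +kernel⟩ 1 (by decide +kernel) g_r0_00110 g_r0_00111

theorem g_r0_001 : Good (((root0.lo 0).lo 2).hi 0) :=
  good_split ⟨by decide +kernel, by decide +kernel, by decide +kernel, by decide +kernel⟩ 2 (by decide +kernel) g_r0_0010 g_r0_0011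

theorem g_r0_00 : Good ((root0.lo 0).lo 2) :=
  good_split ⟨by decide +kernel, by decide +kernel, by decide +kernel, by decide +kernel⟩ 0 (by decide +kernel) g_r0_000 g_r0_001

theorem g_r0_0100 : Good ((((root0.lo 0).hi 2).lo 0).lo 2) :=
  good_split ⟨by decide +kernel, by decide +kernel, by decide +kernel, by decide +kernel⟩ 1 (by decide +kernel) g_r0_01000 g_r0_01001

theorem g_r0_01010000 : Good ((((((((root0.lo 0).hi 2).lo 0).hi 2).lo 1).lo 3).lo 0).lo 0) :=
  good_split ⟨by decide +kernel, by decide +kernel, by decide +kernel, by decide +kernel⟩ 2 (by decide +kernel) g_r0_010100000 g_r0_010100001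

theorem g_r0_0101000 : Good (((((((root0.lo 0).hi 2).lo 0).hi 2).lo 1).lo 3).lo 0) :=
  good_split ⟨by decide +kernel, by decide +kernel, by decide +kernel, by decide +kernel⟩ 0 (by decide +kernel) g_r0_01010000 g_r0_01010001

theorem g_r0_010100 : Good ((((((root0.lo 0).hi 2).lo 0).hi 2).lo 1).lo 3) :=
  good_split ⟨by decide +kernel, by decide +kernel, by decide +kernel, by decide +kernel⟩ 0 (by decide +kernel) g_r0_0101000 g_r0_0101001

theorem g_r0_01010 : Good (((((root0.lo 0).hi 2).lo 0).hi 2).lo 1) :=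
  good_split ⟨by decide +kernel, by decide +kernel, by decide +kernel, by decide +kernel⟩ 3 (by decide +kernel) g_r0_010100 g_r0_010101

theorem g_r0_0101 : Good ((((root0.lo 0).hi 2).lo 0).hi 2) :=
  good_split ⟨by decide +kernel, by decide +kernel, by decide +kernel, by decide +kernel⟩ 1 (by decide +kernel) g_r0_01010 g_r0_01011

theorem g_r0_010 : Good (((root0.lo 0).hi 2).lo 0) :=
  good_split ⟨by decide +kernel, by decide +kernel, by decide +kernel, by decide +kernel⟩ 2 (by decide +kernel) g_r0_0100 g_r0_0101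

theorem g_r0_01100 : Good (((((root0.lo 0).hi 2).hi 0).lo 2).lo 1) :=
  good_split ⟨by decide +kernel, by decide +kernel, by decide +kernel, by decide +kernel⟩ 3 (by decide +kernel) g_r0_011000 g_r0_011001

theorem g_r0_01101100 : Good ((((((((root0.lo 0).hi 2).hi 0).lo 2).hi 1).hi 3).lo 1).lo 3) :=
  good_split ⟨by decide +kernel, by decide +kernel, by decide +kernel, by decide +kernel⟩ 0 (by decide +kernel) g_r0_011011000 g_r0_011011001

theorem g_r0_0110110 : Good (((((((root0.lo 0).hi 2).hi 0).lo 2).hi 1).hi 3).lo 1) :=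
  good_split ⟨by decide +kernel, by decide +kernel, by decide +kernel, by decide +kernel⟩ 3 (by decide +kernel) g_r0_01101100 g_r0_01101101

theorem g_r0_011011 : Good ((((((root0.lo 0).hi 2).hi 0).lo 2).hi 1).hi 3) :=
  good_split ⟨by decide +kernel, by decide +kernel, by decide +kernel, by decide +kernel⟩ 1 (by decide +kernel) g_r0_0110110 g_r0_0110111

theorem g_r0_01101 : Good (((((root0.lo 0).hi 2).hi 0).lo 2).hi 1) :=
  good_split ⟨by decide +kernel, by decide +kernel, by decide +kernel, by decide +kernel⟩ 3 (by decide +kernel) g_r0_011010 g_r0_011011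

theorem g_r0_0110 : Good ((((root0.lo 0).hi 2).hi 0).lo 2) :=
  good_split ⟨by decide +kernel, by decide +kernel, by decide +kernel, by decide +kernel⟩ 1 (by decide +kernel) g_r0_01100 g_r0_01101

theorem g_r0_011 : Good (((root0.lo 0).hi 2).hi 0) :=
  good_split ⟨by decide +kernel, by decide +kernel, by decide +kernel, by decide +kernel⟩ 2 (by decide +kernel) g_r0_0110 g_r0_0111

theorem g_r0_01 : Good ((root0.lo 0).hi 2) :=
  good_split ⟨by decide +kernel, by decide +kernel, by decide +kernel, by decide +kernel⟩ 0 (by decide +kernel) g_r0_010 g_r0_011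

theorem g_r0_0 : Good (root0.lo 0) :=
  good_split ⟨by decide +kernel, by decide +kernel, by decide +kernel, by decide +kernel⟩ 2 (by decide +kernel) g_r0_00 g_r0_01

theorem g_r0_1 : Good (root0.hi 0) :=
  good_split ⟨by decide +kernel, by decide +kernel, by decide +kernel, by decide +kernel⟩ 2 (by decide +kernel) g_r0_10 g_r0_11

theorem g_r0_ : Good root0 :=
  good_split ⟨by decide +kernel, by decide +kernel, by decide +kernel, by decide +kernel⟩ 0 (by decide +kernel) g_r0_0 g_r0_1

theorem g_r1_ : Good root1 :=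
  good_split ⟨by decide +kernel, by decide +kernel, by decide +kernel, by decide +kernel⟩ 0 (by decide +kernel) g_r1_0 g_r1_1

theorem g_r2_ : Good root2 :=
  good_split ⟨by decide +kernel, by decide +kernel, by decide +kernel, by decide +kernel⟩ 0 (by decide +kernel) g_r2_0 g_r2_1

end MaxTerm.PA.Chk
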