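import Pool.Agent.MaxTerm.PartA.Chk

/-! root boxes of the far region -/

namespace MaxTerm.PA.Chk

def root0 : Box := ⟨-206158430208, 214748364800, -206158430208, 214748364800, 481036337152, 214748364800, 481036337152, 214748364800⟩

def root1 : Box := ⟨-206158430208, 214748364800, -206158430208, -214748364800, 481036337152, 214748364800, 481036337152, 214748364800⟩

def root2 : Box := ⟨-206158430208, -214748364800, -206158430208, 214748364800, 481036337152, 214748364800, 481036337152, 214748364800⟩

end MaxTerm.PA.Chk
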